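import Pool.Agent.W907.SG.All

/-!
# The Singer conjecture for right-angled Coxeter groups with nerve dual to a 2-truncated cube

`Trunc n G`: the flag complex of the graph `G` is obtained from the empty complex by suspensions and stellar
subdivisions of edges; it is a flag triangulation of the `(n-1)`-sphere, so the Davis complex of the right-angled
Coxeter group `W G` is a contractible `n`-manifold with a proper cocompact action of `W G`.  Its reduced
`ℓ²`-homology vanishes in all degrees `i ≠ n / 2`.

Idea: on finite `3`-group covers the mod 3 Betti numbers satisfy `beta (G) ≤ |Y| beta (G, smaller cover)`; on the
suspension a line representation makes the complex acyclic, and every edge subdivision is adding a cone over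
the suspension of the link of the edge and deleting the edge, whose effect is controlled by the link of the edge.
-/

namespace Pool.Agent.Results.MP_f80465_gt.TruncatedCubeNerves

open Pool.Agent.W907.SG

/-- The Singer conjecture holds for the right-angled Coxeter groups whose nerve is obtained from the empty
complex by suspensions and edge subdivisions. -/
theorem result : ∀ (n : ℕ) (V : Type) [Fintype V] [LinearOrder V] (G : SimpleGraph V), Trunc n G →
    ∀ i : ℕ, 2 * i ≠ n → L2Van G i :=
  fun n V _ _ G h i hi => fin V G i (classA n V G h i hi)

end Pool.Agent.Results.MP_f80465_gt.TruncatedCubeNerves
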